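import Pool.Agent.Helper54.DI.StmtsB

/-! Module MATCH of the table di_mods: instances of a relation are recognised from the skeleton and
the list of the indices. -/

namespace Pool.Agent.Helper24.DI

open Finset Filter Topology Pool.Agent.Helper54.ETR Pool.Agent.Helper54.Poly
open Pool.Agent.Helper54.DI

theorem skel_append (a b : List Tok) : skel (a ++ b) = skel a ++ skel b := by
  unfold skel
  exact List.filter_append a b

theorem skel_nil : skel [] = [] := rfl

theorem skel_cons_s (l : List Tok) : skel (Tok.s :: l) = skel l := rfl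

theorem skel_var (i : ℕ) : skel (Term.var i).toks = [Tok.x, Tok.e] := by
  have h : ∀ i : ℕ, skel (List.replicate i Tok.s ++ [Tok.e]) = [Tok.e] := by
    intro i
    induction i with
    | zero => rfl
    | succ i ih =>
      rw [List.replicate_succ, List.cons_append, skel_cons_s, ih]
  have h2 : skel (Term.var i).toks = Tok.x :: skel (List.replicate i Tok.s ++ [Tok.e]) := rfl
  rw [h2, h]

theorem skel_add (s t : Term) : skel (Term.add s t).toks = Tok.add :: (skel s.toks ++ skel t.toks) := by
  have h2 : skel (Term.add s t).toks = Tok.add :: skel (s.toks ++ t.toks) := rfl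
  rw [h2, skel_append]

theorem skel_sub (s t : Term) : skel (Term.sub s t).toks = Tok.sub :: (skel s.toks ++ skel t.toks) := by
  have h2 : skel (Term.sub s t).toks = Tok.sub :: skel (s.toks ++ t.toks) := rfl
  rw [h2, skel_append]

theorem skel_mul (s t : Term) : skel (Term.mul s t).toks = Tok.mul :: (skel s.toks ++ skel t.toks) := by
  have h2 : skel (Term.mul s t).toks = Tok.mul :: skel (s.toks ++ t.toks) := rfl
  rw [h2, skel_append]

theorem skel_lt (s t : Term) : skel (Form.lt s t).toks = Tok.lt :: (skel s.toks ++ skel t.toks) := by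
  have h2 : skel (Form.lt s t).toks = Tok.lt :: skel (s.toks ++ t.toks) := rfl
  rw [h2, skel_append]

theorem skel_le (s t : Term) : skel (Form.le s t).toks = Tok.le :: (skel s.toks ++ skel t.toks) := by
  have h2 : skel (Form.le s t).toks = Tok.le :: skel (s.toks ++ t.toks) := rfl
  rw [h2, skel_append]

theorem skel_eq (s t : Term) : skel (Form.eq s t).toks = Tok.eq :: (skel s.toks ++ skel t.toks) := by
  have h2 : skel (Form.eq s t).toks = Tok.eq :: skel (s.toks ++ t.toks) := rfl
  rw [h2, skel_append]

theorem skel_ge (s t : Term) : skel (Form.ge s t).toks = Tok.ge :: (skel s.toks ++ skel t.toks) := by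
  have h2 : skel (Form.ge s t).toks = Tok.ge :: skel (s.toks ++ t.toks) := rfl
  rw [h2, skel_append]

theorem skel_gt (s t : Term) : skel (Form.gt s t).toks = Tok.gt :: (skel s.toks ++ skel t.toks) := by
  have h2 : skel (Form.gt s t).toks = Tok.gt :: skel (s.toks ++ t.toks) := rfl
  rw [h2, skel_append]

theorem skel_and (p q : Form) : skel (Form.and p q).toks = Tok.and :: (skel p.toks ++ skel q.toks) := by
  have h2 : skel (Form.and p q).toks = Tok.and :: skel (p.toks ++ q.toks) := rfl
  rw [h2, skel_append]

theorem skel_or (p q : Form) : skel (Form.or p q).toks = Tok.or :: (skel p.toks ++ skel q.toks) := by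
  have h2 : skel (Form.or p q).toks = Tok.or :: skel (p.toks ++ q.toks) := rfl
  rw [h2, skel_append]

theorem skel_not (p : Form) : skel (Form.not p).toks = Tok.not :: skel p.toks := rfl

theorem skel_zero : skel Term.zero.toks = [Tok.zero] := rfl
theorem skel_one : skel Term.one.toks = [Tok.one] := rfl

theorem skel_ren_term (f : ℕ → ℕ) (t : Term) : skel (t.ren f).toks = skel t.toks := by
  induction t with
  | zero => rfl
  | one => rfl
  | var i => simp only [Term.ren, skel_var]
  | add s t hs ht => simp only [Term.ren, skel_add, hs, ht]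
  | sub s t hs ht => simp only [Term.ren, skel_sub, hs, ht]
  | mul s t hs ht => simp only [Term.ren, skel_mul, hs, ht]

theorem skel_ren (f : ℕ → ℕ) (p : Form) : skel (p.ren f).toks = skel p.toks := by
  induction p with
  | lt s t => simp only [Form.ren, skel_lt, skel_ren_term]
  | le s t => simp only [Form.ren, skel_le, skel_ren_term]
  | eq s t => simp only [Form.ren, skel_eq, skel_ren_term]
  | ge s t => simp only [Form.ren, skel_ge, skel_ren_term]
  | gt s t => simp only [Form.ren, skel_gt, skel_ren_term]
  | and p q hp hq => simp only [Form.ren, skel_and, hp, hq]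
  | or p q hp hq => simp only [Form.ren, skel_or, hp, hq]
  | not p hp => simp only [Form.ren, skel_not, hp]

theorem tvars_ren (f : ℕ → ℕ) (t : Term) : tvars (t.ren f) = (tvars t).map f := by
  induction t with
  | zero => rfl
  | one => rfl
  | var i => rfl
  | add s t hs ht => simp only [Term.ren, tvars, hs, ht, List.map_append]
  | sub s t hs ht => simp only [Term.ren, tvars, hs, ht, List.map_append]
  | mul s t hs ht => simp only [Term.ren, tvars, hs, ht, List.map_append]

theorem fvars_ren (f : ℕ → ℕ) (p : Form) : fvars (p.ren f) = (fvars p).map f := by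
  induction p with
  | lt s t => simp only [Form.ren, fvars, tvars_ren, List.map_append]
  | le s t => simp only [Form.ren, fvars, tvars_ren, List.map_append]
  | eq s t => simp only [Form.ren, fvars, tvars_ren, List.map_append]
  | ge s t => simp only [Form.ren, fvars, tvars_ren, List.map_append]
  | gt s t => simp only [Form.ren, fvars, tvars_ren, List.map_append]
  | and p q hp hq => simp only [Form.ren, fvars, hp, hq, List.map_append]
  | or p q hp hq => simp only [Form.ren, fvars, hp, hq, List.map_append]
  | not p hp => simp only [Form.ren, fvars, hp]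

theorem lk_map (a : List ℕ) (f : ℕ → ℕ) (i : ℕ) (hi : i ∈ a) : lk a (a.map f) i = f i := by
  unfold lk
  have h1 : a.idxOf i < a.length := List.idxOf_lt_length_iff.mpr hi
  have h2 : a.idxOf i < (a.map f).length := by rw [List.length_map]; exact h1
  rw [List.getD_eq_getElem _ _ h2, List.getElem_map, List.getElem_idxOf h1]

theorem term_inj (t : Term) : ∀ (t' : Term) (a b : List Tok) (c d : List ℕ),
    skel t.toks ++ a = skel t'.toks ++ b → tvars t ++ c = tvars t' ++ d →
    t = t' ∧ a = b ∧ c = d := by
  induction t with
  | zero =>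
    intro t' a b c d h1 h2
    cases t' with
    | zero => exact ⟨rfl, by simpa [skel_zero] using h1, by simpa [tvars] using h2⟩
    | one => simp [skel_zero, skel_one] at h1
    | var j => simp [skel_zero, skel_var] at h1
    | add s t => simp [skel_zero, skel_add] at h1
    | sub s t => simp [skel_zero, skel_sub] at h1
    | mul s t => simp [skel_zero, skel_mul] at h1
  | one =>
    intro t' a b c d h1 h2
    cases t' with
    | zero => simp [skel_zero, skel_one] at h1
    | one => exact ⟨rfl, by simpa [skel_one] using h1, by simpa [tvars] using h2⟩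
    | var j => simp [skel_one, skel_var] at h1
    | add s t => simp [skel_one, skel_add] at h1
    | sub s t => simp [skel_one, skel_sub] at h1
    | mul s t => simp [skel_one, skel_mul] at h1
  | var i =>
    intro t' a b c d h1 h2
    cases t' with
    | zero => simp [skel_zero, skel_var] at h1
    | one => simp [skel_one, skel_var] at h1
    | var j =>
      simp only [skel_var, List.cons_append, List.nil_append, List.cons.injEq, true_and] at h1
      simp only [tvars, List.cons_append, List.nil_append, List.cons.injEq] at h2
      exact ⟨by rw [h2.1], h1, h2.2⟩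
    | add s t => simp [skel_var, skel_add] at h1
    | sub s t => simp [skel_var, skel_sub] at h1
    | mul s t => simp [skel_var, skel_mul] at h1
  | add s t hs ht =>
    intro t' a b c d h1 h2
    cases t' with
    | zero => simp [skel_zero, skel_add] at h1
    | one => simp [skel_one, skel_add] at h1
    | var j => simp [skel_add, skel_var] at h1
    | add s' t' =>
      simp only [skel_add, List.cons_append, List.cons.injEq, true_and, List.append_assoc] at h1
      simp only [tvars, List.append_assoc] at h2
      obtain ⟨e1, e2, e3⟩ := hs _ _ _ _ _ h1 h2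
      obtain ⟨e4, e5, e6⟩ := ht _ _ _ _ _ e2 e3
      exact ⟨by rw [e1, e4], e5, e6⟩
    | sub s t => simp [skel_add, skel_sub] at h1
    | mul s t => simp [skel_add, skel_mul] at h1
  | sub s t hs ht =>
    intro t' a b c d h1 h2
    cases t' with
    | zero => simp [skel_zero, skel_sub] at h1
    | one => simp [skel_one, skel_sub] at h1
    | var j => simp [skel_sub, skel_var] at h1
    | add s' t' => simp [skel_add, skel_sub] at h1
    | sub s' t' =>
      simp only [skel_sub, List.cons_append, List.cons.injEq, true_and, List.append_assoc] at h1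
      simp only [tvars, List.append_assoc] at h2
      obtain ⟨e1, e2, e3⟩ := hs _ _ _ _ _ h1 h2
      obtain ⟨e4, e5, e6⟩ := ht _ _ _ _ _ e2 e3
      exact ⟨by rw [e1, e4], e5, e6⟩
    | mul s t => simp [skel_sub, skel_mul] at h1
  | mul s t hs ht =>
    intro t' a b c d h1 h2
    cases t' with
    | zero => simp [skel_zero, skel_mul] at h1
    | one => simp [skel_one, skel_mul] at h1
    | var j => simp [skel_mul, skel_var] at h1
    | add s' t' => simp [skel_add, skel_mul] at h1
    | sub s' t' => simp [skel_sub, skel_mul] at h1
    | mul s' t' =>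
      simp only [skel_mul, List.cons_append, List.cons.injEq, true_and, List.append_assoc] at h1
      simp only [tvars, List.append_assoc] at h2
      obtain ⟨e1, e2, e3⟩ := hs _ _ _ _ _ h1 h2
      obtain ⟨e4, e5, e6⟩ := ht _ _ _ _ _ e2 e3
      exact ⟨by rw [e1, e4], e5, e6⟩

theorem pair_inj (s t s' t' : Term) (a b : List Tok) (c d : List ℕ)
    (h1 : (skel s.toks ++ skel t.toks) ++ a = (skel s'.toks ++ skel t'.toks) ++ b)
    (h2 : (tvars s ++ tvars t) ++ c = (tvars s' ++ tvars t') ++ d) :
    s = s' ∧ t = t' ∧ a = b ∧ c = d := by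
  rw [List.append_assoc, List.append_assoc] at h1 h2
  obtain ⟨e1, e2, e3⟩ := term_inj s _ _ _ _ _ h1 h2
  obtain ⟨e4, e5, e6⟩ := term_inj t _ _ _ _ _ e2 e3
  exact ⟨e1, e4, e5, e6⟩

theorem form_inj (p : Form) : ∀ (p' : Form) (a b : List Tok) (c d : List ℕ),
    skel p.toks ++ a = skel p'.toks ++ b → fvars p ++ c = fvars p' ++ d →
    p = p' ∧ a = b ∧ c = d := by
  induction p with
  | lt s t =>
    intro p' a b c d h1 h2
    cases p' with
    | lt s' t' =>
      simp only [skel_lt, List.cons_append, List.cons.injEq, true_and] at h1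
      obtain ⟨e1, e2, e3, e4⟩ := pair_inj _ _ _ _ _ _ _ _ h1 h2
      exact ⟨by rw [e1, e2], e3, e4⟩
    | le s' t' => simp [skel_lt, skel_le] at h1
    | eq s' t' => simp [skel_lt, skel_eq] at h1
    | ge s' t' => simp [skel_lt, skel_ge] at h1
    | gt s' t' => simp [skel_lt, skel_gt] at h1
    | and p q => simp [skel_lt, skel_and] at h1
    | or p q => simp [skel_lt, skel_or] at h1
    | not p => simp [skel_lt, skel_not] at h1
  | le s t =>
    intro p' a b c d h1 h2
    cases p' with
    | lt s' t' => simp [skel_lt, skel_le] at h1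
    | le s' t' =>
      simp only [skel_le, List.cons_append, List.cons.injEq, true_and] at h1
      obtain ⟨e1, e2, e3, e4⟩ := pair_inj _ _ _ _ _ _ _ _ h1 h2
      exact ⟨by rw [e1, e2], e3, e4⟩
    | eq s' t' => simp [skel_le, skel_eq] at h1
    | ge s' t' => simp [skel_le, skel_ge] at h1
    | gt s' t' => simp [skel_le, skel_gt] at h1
    | and p q => simp [skel_le, skel_and] at h1
    | or p q => simp [skel_le, skel_or] at h1
    | not p => simp [skel_le, skel_not] at h1
  | eq s t =>
    intro p' a b c d h1 h2
    cases p' with
    | lt s' t' => simp [skel_lt, skel_eq] at h1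
    | le s' t' => simp [skel_le, skel_eq] at h1
    | eq s' t' =>
      simp only [skel_eq, List.cons_append, List.cons.injEq, true_and] at h1
      obtain ⟨e1, e2, e3, e4⟩ := pair_inj _ _ _ _ _ _ _ _ h1 h2
      exact ⟨by rw [e1, e2], e3, e4⟩
    | ge s' t' => simp [skel_eq, skel_ge] at h1
    | gt s' t' => simp [skel_eq, skel_gt] at h1
    | and p q => simp [skel_eq, skel_and] at h1
    | or p q => simp [skel_eq, skel_or] at h1
    | not p => simp [skel_eq, skel_not] at h1
  | ge s t =>
    intro p' a b c d h1 h2
    cases p' with
    | lt s' t' => simp [skel_lt, skel_ge] at h1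
    | le s' t' => simp [skel_le, skel_ge] at h1
    | eq s' t' => simp [skel_eq, skel_ge] at h1
    | ge s' t' =>
      simp only [skel_ge, List.cons_append, List.cons.injEq, true_and] at h1
      obtain ⟨e1, e2, e3, e4⟩ := pair_inj _ _ _ _ _ _ _ _ h1 h2
      exact ⟨by rw [e1, e2], e3, e4⟩
    | gt s' t' => simp [skel_ge, skel_gt] at h1
    | and p q => simp [skel_ge, skel_and] at h1
    | or p q => simp [skel_ge, skel_or] at h1
    | not p => simp [skel_ge, skel_not] at h1
  | gt s t =>
    intro p' a b c d h1 h2
    cases p' with
    | lt s' t' => simp [skel_lt, skel_gt] at h1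
    | le s' t' => simp [skel_le, skel_gt] at h1
    | eq s' t' => simp [skel_eq, skel_gt] at h1
    | ge s' t' => simp [skel_ge, skel_gt] at h1
    | gt s' t' =>
      simp only [skel_gt, List.cons_append, List.cons.injEq, true_and] at h1
      obtain ⟨e1, e2, e3, e4⟩ := pair_inj _ _ _ _ _ _ _ _ h1 h2
      exact ⟨by rw [e1, e2], e3, e4⟩
    | and p q => simp [skel_gt, skel_and] at h1
    | or p q => simp [skel_gt, skel_or] at h1
    | not p => simp [skel_gt, skel_not] at h1
  | and p q hp hq =>
    intro p' a b c d h1 h2
    cases p' with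
    | lt s' t' => simp [skel_lt, skel_and] at h1
    | le s' t' => simp [skel_le, skel_and] at h1
    | eq s' t' => simp [skel_eq, skel_and] at h1
    | ge s' t' => simp [skel_ge, skel_and] at h1
    | gt s' t' => simp [skel_gt, skel_and] at h1
    | and p' q' =>
      simp only [skel_and, List.cons_append, List.cons.injEq, true_and, List.append_assoc] at h1
      simp only [fvars, List.append_assoc] at h2
      obtain ⟨e1, e2, e3⟩ := hp _ _ _ _ _ h1 h2
      obtain ⟨e4, e5, e6⟩ := hq _ _ _ _ _ e2 e3
      exact ⟨by rw [e1, e4], e5, e6⟩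
    | or p q => simp [skel_and, skel_or] at h1
    | not p => simp [skel_and, skel_not] at h1
  | or p q hp hq =>
    intro p' a b c d h1 h2
    cases p' with
    | lt s' t' => simp [skel_lt, skel_or] at h1
    | le s' t' => simp [skel_le, skel_or] at h1
    | eq s' t' => simp [skel_eq, skel_or] at h1
    | ge s' t' => simp [skel_ge, skel_or] at h1
    | gt s' t' => simp [skel_gt, skel_or] at h1
    | and p' q' => simp [skel_and, skel_or] at h1
    | or p' q' =>
      simp only [skel_or, List.cons_append, List.cons.injEq, true_and, List.append_assoc] at h1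
      simp only [fvars, List.append_assoc] at h2
      obtain ⟨e1, e2, e3⟩ := hp _ _ _ _ _ h1 h2
      obtain ⟨e4, e5, e6⟩ := hq _ _ _ _ _ e2 e3
      exact ⟨by rw [e1, e4], e5, e6⟩
    | not p => simp [skel_or, skel_not] at h1
  | not p hp =>
    intro p' a b c d h1 h2
    cases p' with
    | lt s' t' => simp [skel_lt, skel_not] at h1
    | le s' t' => simp [skel_le, skel_not] at h1
    | eq s' t' => simp [skel_eq, skel_not] at h1
    | ge s' t' => simp [skel_ge, skel_not] at h1
    | gt s' t' => simp [skel_gt, skel_not] at h1
    | and p' q' => simp [skel_and, skel_not] at h1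
    | or p' q' => simp [skel_or, skel_not] at h1
    | not p' =>
      simp only [skel_not, List.cons_append, List.cons.injEq, true_and] at h1
      simp only [fvars] at h2
      obtain ⟨e1, e2, e3⟩ := hp _ _ _ _ _ h1 h2
      exact ⟨by rw [e1], e2, e3⟩

theorem st_MATCH (hV : ST_VNUM) : ST_MATCH := by
  intro ρ φ
  have hm : matchb ρ φ.toks = true ↔ (skel φ.toks = skel ρ.toks ∧
      fvars φ = (fvars ρ).map (lk (fvars ρ) (fvars φ))) := by
    unfold matchb
    rw [Bool.and_eq_true, decide_eq_true_iff, decide_eq_true_iff, hV.2]
  have key : matchb ρ φ.toks = true → φ = ρ.ren (lk (fvars ρ) (fvars φ)) := by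
    intro h
    obtain ⟨h1, h2⟩ := hm.1 h
    refine (form_inj φ (ρ.ren (lk (fvars ρ) (fvars φ))) [] [] [] [] ?_ ?_).1
    · rw [List.append_nil, List.append_nil, skel_ren, h1]
    · rw [List.append_nil, List.append_nil, fvars_ren]
      exact h2
  refine ⟨⟨fun h => ⟨_, key h⟩, ?_⟩, key⟩
  rintro ⟨f, rfl⟩
  rw [hm]
  refine ⟨skel_ren f ρ, ?_⟩
  rw [fvars_ren]
  refine List.map_congr_left ?_
  intro i hi
  rw [lk_map _ _ _ hi]

end Pool.Agent.Helper24.DI
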